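import Pool.Agent.TH700.PA.Defs
import Mathlib.LinearAlgebra.FiniteDimensional.Lemmas

/-!
# The cuts of a tree tensor network over any set of variables
-/

set_option autoImplicit false

open Finset

namespace Pool.Agent.TH700.PA


variable {V K Al W : Type} [Fintype V]

open Classical in
/-- The variables that are read. -/
noncomputable def rdv (T : Net K V Al W) : Finset V :=
  univ.filter (fun v => 0 < T.reads v)

theorem mem_rdv {T : Net K V Al W} {v : V} : v ∈ rdv T ↔ 0 < T.reads v := by
  unfold rdv
  simp

open Classical in
/-- The sets of variables read below the nodes. -/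
noncomputable def cutsv : Net K V Al W → Finset (Finset V)
  | .leaf v f => {rdv (.leaf v f)}
  | .node l t c => insert (rdv (.node l t c)) (cutsv l ∪ cutsv t)

theorem mem_cutsv_node {l t : Net K V Al W} {c : W → W → W → K} {A : Finset V} :
    A ∈ cutsv (.node l t c) ↔ A = rdv (.node l t c) ∨ A ∈ cutsv l ∨ A ∈ cutsv t := by
  classical
  conv_lhs => unfold cutsv
  rw [mem_insert, mem_union]

theorem mem_rdv_node {l t : Net K V Al W} {c : W → W → W → K} {v : V} :
    v ∈ rdv (.node l t c) ↔ v ∈ rdv l ∨ v ∈ rdv t := by
  have h : (Net.node l t c).reads v = l.reads v + t.reads v := rfl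
  rw [mem_rdv, mem_rdv, mem_rdv, h]
  omega

theorem mem_rdv_leaf {u : V} {f : Al → W → K} {v : V} :
    v ∈ rdv (.leaf u f) ↔ v = u := by
  classical
  have h : (Net.leaf u f).reads v = if u = v then 1 else 0 := rfl
  rw [mem_rdv, h]
  split_ifs with h1
  · simp [h1]
  · simp [Ne.symm h1]

theorem card_cutsv (T : Net K V Al W) : (cutsv T).card ≤ T.size := by
  classical
  induction T with
  | leaf v f => simp [cutsv, Net.size]
  | node l t c hl ht =>
    unfold cutsv Net.size
    refine (card_insert_le _ _).trans ?_
    have := card_union_le (cutsv l) (cutsv t)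
    omega

theorem rdv_mem_cutsv (T : Net K V Al W) : rdv T ∈ cutsv T := by
  cases T with
  | leaf v f => simp [cutsv]
  | node l t c => simp [cutsv]

theorem eval_dep [Semiring K] [Fintype W] (T : Net K V Al W)
    {z z' : V → Al} (h : ∀ v ∈ rdv T, z v = z' v) :
    T.eval z = T.eval z' := by
  induction T with
  | leaf v f =>
    unfold Net.eval
    congr 1
    apply h
    rw [mem_rdv]
    simp [Net.reads]
  | node l t c hl ht =>
    unfold Net.eval
    rw [hl fun B hB => h B ?_, ht fun B hB => h B ?_]
    · rw [mem_rdv] at hB ⊢
      unfold Net.reads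
      omega
    · rw [mem_rdv] at hB ⊢
      unfold Net.reads
      omega

/-- The function `f` has rank at most the number of elements of `W` for the partition of the
variables into `A` and the others. -/
def CutV [Semiring K] (W : Type) [Fintype W] (f : (V → Al) → K) (A : Finset V) : Prop :=
  ∃ g H : (V → Al) → W → K, (∀ z z', (∀ v ∈ A, z v = z' v) → g z = g z') ∧
    (∀ z z', (∀ v, v ∉ A → z v = z' v) → H z = H z') ∧ ∀ z, f z = ∑ k, g z k * H z k

theorem cutV_of_mem [CommSemiring K] [Fintype W] (T : Net K V Al W) :
    (∀ v, T.reads v ≤ 1) →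
    ∀ (f : (V → Al) → K) (H : (V → Al) → W → K),
      (∀ z z', (∀ v, v ∉ rdv T → z v = z' v) → H z = H z') →
      (∀ z, f z = ∑ k, T.eval z k * H z k) → ∀ A ∈ cutsv T, CutV W f A := by
  classical
  induction T with
  | leaf v g =>
    intro _ f H h1 h2 A hA
    unfold cutsv at hA
    rw [mem_singleton] at hA
    subst hA
    exact ⟨fun z => (Net.leaf v g).eval z, H, fun z z' h => eval_dep _ h, h1, h2⟩
  | node l t c hl ht =>
    intro h0 f H h1 h2 A hA
    unfold cutsv at hA
    rw [mem_insert, mem_union] at hA
    rcases hA with rfl | hA | hA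
    · exact ⟨fun z => (Net.node l t c).eval z, H, fun z z' h => eval_dep _ h, h1, h2⟩
    · refine hl (fun B => ?_) f (fun z i => ∑ j, ∑ k, c i j k * (t.eval z j * H z k)) ?_ ?_
        A hA
      · have := h0 B
        unfold Net.reads at this
        omega
      · intro z z' h
        have e1 : t.eval z = t.eval z' := by
          refine eval_dep _ fun B hB => h B fun hB' => ?_
          rw [mem_rdv] at hB hB'
          have := h0 B
          unfold Net.reads at this
          omega
        have e2 : H z = H z' := by
          refine h1 z z' fun B hB => h B fun hB' => hB ?_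
          rw [mem_rdv] at hB' ⊢
          unfold Net.reads
          omega
        funext i
        simp only [e1, e2]
      · intro z
        rw [h2]
        simp only [Net.eval, Finset.mul_sum, Finset.sum_mul]
        rw [sum_comm]
        refine sum_congr rfl fun i _ => ?_
        rw [sum_comm]
        refine sum_congr rfl fun j _ => sum_congr rfl fun k _ => ?_
        ring
    · refine ht (fun B => ?_) f (fun z j => ∑ i, ∑ k, c i j k * (l.eval z i * H z k)) ?_ ?_
        A hA
      · have := h0 B
        unfold Net.reads at this
        omega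
      · intro z z' h
        have e1 : l.eval z = l.eval z' := by
          refine eval_dep _ fun B hB => h B fun hB' => ?_
          rw [mem_rdv] at hB hB'
          have := h0 B
          unfold Net.reads at this
          omega
        have e2 : H z = H z' := by
          refine h1 z z' fun B hB => h B fun hB' => hB ?_
          rw [mem_rdv] at hB' ⊢
          unfold Net.reads
          omega
        funext i
        simp only [e1, e2]
      · intro z
        rw [h2]
        simp only [Net.eval, Finset.mul_sum, Finset.sum_mul]
        rw [sum_comm]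
        rw [sum_comm (s := univ (α := W)) (t := univ (α := W)) (f := fun j i => ∑ k,
          t.eval z j * (c i j k * (l.eval z i * H z k)))]
        refine sum_congr rfl fun i _ => ?_
        rw [sum_comm]
        refine sum_congr rfl fun j _ => sum_congr rfl fun k _ => ?_
        ring

theorem cutsv_cut [Field K] [Fintype W] (T : Net K V Al W) (a : W → K) (h1 : ∀ v, T.reads v ≤ 1) :
    ∀ A ∈ cutsv T, CutV W (fun z => T.value a z) A := by
  refine cutV_of_mem T h1 _ (fun _ => a) (fun _ _ _ => rfl) (fun z => ?_)
  unfold Net.value
  exact sum_congr rfl fun k _ => mul_comm _ _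

open Classical in
/-- `x` on the set `A`, and `y` elsewhere. -/
noncomputable def mix (A : Finset V) (x y : V → Al) : V → Al :=
  fun v => if v ∈ A then x v else y v

omit [Fintype V] in
theorem mix_self (A : Finset V) (x : V → Al) : mix A x x = x := by
  funext v
  unfold mix
  split_ifs <;> rfl

theorem card_le_rank [Field K] [Fintype W] {f : (V → Al) → K} {A : Finset V} (hA : CutV W f A)
    {ι : Type} (s : Finset ι) (z : ι → V → Al) (hd : ∀ i ∈ s, f (z i) ≠ 0)
    (ho : ∀ i ∈ s, ∀ j ∈ s, i ≠ j → f (mix A (z i) (z j)) = 0) : s.card ≤ Fintype.card W := by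
  classical
  obtain ⟨g, H, hg, hH, hfs⟩ := hA
  have key : ∀ i j, ∑ k, g (z i) k * H (z j) k = f (mix A (z i) (z j)) := by
    intro i j
    have e1 : g (mix A (z i) (z j)) = g (z i) := hg _ _ fun v hv => by unfold mix; rw [if_pos hv]
    have e2 : H (mix A (z i) (z j)) = H (z j) := hH _ _ fun v hv => by unfold mix; rw [if_neg hv]
    rw [hfs, e1, e2]
  have hli : LinearIndependent K (fun i : s => g (z i.1)) := by
    rw [Fintype.linearIndependent_iff]
    intro c hc j
    have h1 : ∑ k, (∑ i, c i • g (z i.1)) k * H (z j.1) k = 0 := by
      rw [hc]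
      simp
    have h2 : ∑ k, (∑ i, c i • g (z i.1)) k * H (z j.1) k =
        ∑ i, c i * f (mix A (z i.1) (z j.1)) := by
      simp only [Finset.sum_apply, Pi.smul_apply, smul_eq_mul, Finset.sum_mul]
      rw [sum_comm]
      refine sum_congr rfl fun i _ => ?_
      rw [← key, mul_sum]
      exact sum_congr rfl fun k _ => by ring
    rw [h1] at h2
    rw [sum_eq_single j] at h2
    · rw [mix_self] at h2
      rcases mul_eq_zero.1 h2.symm with h3 | h3
      · exact h3
      · exact absurd h3 (hd j.1 j.2)
    · intro i _ hij
      rw [ho i.1 i.2 j.1 j.2 (fun h => hij (Subtype.ext h)), mul_zero]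
    · intro h
      exact absurd (mem_univ j) h
  have h3 := hli.fintype_card_le_finrank
  rw [Module.finrank_fintype_fun_eq_card, Fintype.card_coe] at h3
  exact h3

/-! ### networks that read every variable -/

section Ext

variable [Semiring K] [DecidableEq W]

/-- Read the variable `v` and ignore it. -/
def ext1 (j0 : W) (T : Net K V Al W) (v : V) : Net K V Al W :=
  .node T (.leaf v (fun _ j => if j = j0 then 1 else 0))
    (fun i j k => if j = j0 then (if i = k then 1 else 0) else 0)

omit [Fintype V] in
theorem ext1_eval [Fintype W] (j0 : W) (T : Net K V Al W) (v : V) (x : V → Al) :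
    (ext1 j0 T v).eval x = T.eval x := by
  funext k
  show ∑ i, ∑ j, (if j = j0 then (if i = k then (1 : K) else 0) else 0) *
    (T.eval x i * (if j = j0 then (1 : K) else 0)) = T.eval x k
  have h1 : ∀ i j : W, (if j = j0 then (if i = k then (1 : K) else 0) else 0) *
      (T.eval x i * (if j = j0 then (1 : K) else 0)) =
      if j = j0 then (if i = k then T.eval x i else 0) else 0 := by
    intro i j
    split_ifs <;> simp
  simp only [h1]
  simp

omit [Fintype V] in
theorem ext1_size (j0 : W) (T : Net K V Al W) (v : V) : (ext1 j0 T v).size = T.size + 1 + 1 := rfl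

omit [Fintype V] in
open Classical in
theorem ext1_reads (j0 : W) (T : Net K V Al W) (v u : V) :
    (ext1 j0 T v).reads u = T.reads u + (if v = u then 1 else 0) := by
  show T.reads u + _ = _
  rfl

end Ext

theorem exists_ext [Semiring K] [Fintype W] [Nonempty W] (T : Net K V Al W)
    (h1 : ∀ v, T.reads v ≤ 1) :
    ∃ T' : Net K V Al W, (∀ v, T'.reads v = 1) ∧ (∀ x, T'.eval x = T.eval x) ∧
      T'.size ≤ T.size + 2 * Fintype.card V := by
  classical
  obtain ⟨j0⟩ := ‹Nonempty W›
  have key : ∀ s : Finset V, (∀ v ∈ s, T.reads v = 0) → ∃ T' : Net K V Al W,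
      (∀ v, T'.reads v = if v ∈ s then 1 else T.reads v) ∧ (∀ x, T'.eval x = T.eval x) ∧
      T'.size = T.size + 2 * s.card := by
    intro s
    induction s using Finset.induction_on with
    | empty => intro _; exact ⟨T, by simp, fun _ => rfl, by simp⟩
    | insert v s hv ih =>
      intro hs
      obtain ⟨T', g1, g2, g3⟩ := ih (fun u hu => hs u (mem_insert_of_mem hu))
      refine ⟨ext1 j0 T' v, ?_, ?_, ?_⟩
      · intro u
        rw [ext1_reads, g1]
        by_cases huv : v = u
        · subst huv
          rw [if_neg hv, hs v (mem_insert_self v s)]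
          simp
        · rw [if_neg huv]
          have : u ∈ insert v s ↔ u ∈ s := by
            rw [mem_insert]
            constructor
            · rintro (h | h)
              · exact absurd h.symm huv
              · exact h
            · exact Or.inr
          simp only [this]
          simp
      · intro x
        rw [ext1_eval, g2]
      · rw [ext1_size, g3, card_insert_of_notMem hv]
        ring
  obtain ⟨T', g1, g2, g3⟩ := key (univ.filter fun v => T.reads v = 0)
    (fun v hv => (mem_filter.1 hv).2)
  refine ⟨T', fun v => ?_, g2, ?_⟩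
  · rw [g1]
    split_ifs with h
    · rfl
    · have h2 := h1 v
      have h3 : T.reads v ≠ 0 := fun h4 => h (mem_filter.2 ⟨mem_univ _, h4⟩)
      omega
  · rw [g3]
    have := card_le_univ (univ.filter fun v => T.reads v = 0)
    omega

end Pool.Agent.TH700.PA
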