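import Mathlib.Algebra.BigOperators.Ring.Finset
import Mathlib.Data.Fintype.BigOperators

/-!
# Tree tensor networks whose variables have values in any alphabet
-/

set_option autoImplicit false

namespace Pool.Agent.TH700.PA

/-- A tree tensor network: every leaf reads a variable of `V` with values in the alphabet `Al` and has
a vector (indexed by `W`) for each value, every inner node combines the vectors of its two children
bilinearly by a tensor `c`. -/
inductive Net (K V Al W : Type) : Type
  | leaf (v : V) (f : Al → W → K)
  | node (l r : Net K V Al W) (c : W → W → W → K)

namespace Net

variable {K V Al W : Type}

/-- The number of nodes. -/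
def size : Net K V Al W → ℕ
  | leaf _ _ => 1
  | node l r _ => l.size + r.size + 1

open Classical in
/-- The number of leaves that read the variable `v`. -/
noncomputable def reads (v : V) : Net K V Al W → ℕ
  | leaf u _ => if u = v then 1 else 0
  | node l r _ => l.reads v + r.reads v

/-- The network is linear (a matrix product): it reads one variable after the other. -/
def Linear : Net K V Al W → Prop
  | leaf _ _ => True
  | node l r _ => l.Linear ∧ ∃ v f, r = leaf v f

/-- The vector computed on the input `x`. -/
def eval [Semiring K] [Fintype W] : Net K V Al W → (V → Al) → W → K
  | leaf v f, x => f (x v)
  | node l r c, x => fun k => ∑ i, ∑ j, c i j k * (l.eval x i * r.eval x j)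

/-- The output on the input `x`, for the output vector `a`. -/
def value [Semiring K] [Fintype W] (T : Net K V Al W) (a : W → K) (x : V → Al) : K :=
  ∑ k, a k * T.eval x k

end Net

end Pool.Agent.TH700.PA
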