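import Pool.Agent.TH700.PA.Parts
import Mathlib.Data.Real.Basic
import Mathlib.Tactic.Positivity
import Mathlib.Tactic.Linarith
import Mathlib.Algebra.BigOperators.Field

/-!
# A dense set of accepted patterns has many accepted mixtures
-/

set_option autoImplicit false

open Finset

namespace Pool.Agent.TH700.PA


section Count

variable {U : Type} [Fintype U] {r M : ℕ}

open Classical in
theorem card_fiber {b : Fin r → Fin M} (hb : Function.Injective b) (G : Fin r → U) :
    (univ.filter (fun F : Fin M → U => F ∘ b = G)).card = Fintype.card U ^ (M - r) := by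
  have h1 : univ.filter (fun F : Fin M → U => F ∘ b = G) =
      Fintype.piFinset (fun i => if h : ∃ l, b l = i then {G h.choose} else univ) := by
    ext F
    rw [mem_filter, Fintype.mem_piFinset]
    constructor
    · rintro ⟨-, h⟩ i
      by_cases hi : ∃ l, b l = i
      · rw [dif_pos hi, mem_singleton, ← h]
        show F i = F (b hi.choose)
        rw [hi.choose_spec]
      · rw [dif_neg hi]
        exact mem_univ _
    · intro h
      refine ⟨mem_univ _, funext fun l => ?_⟩
      have h2 := h (b l)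
      have hex : ∃ l', b l' = b l := ⟨l, rfl⟩
      rw [dif_pos hex, mem_singleton] at h2
      show F (b l) = G l
      rw [h2, hb hex.choose_spec]
  rw [h1, Fintype.card_piFinset]
  have h2 : ∀ i, (if h : ∃ l, b l = i then ({G h.choose} : Finset U) else univ).card =
      if i ∈ univ.image b then 1 else Fintype.card U := by
    intro i
    by_cases hi : ∃ l, b l = i
    · rw [dif_pos hi, if_pos, card_singleton]
      obtain ⟨l, hl⟩ := hi
      exact mem_image.2 ⟨l, mem_univ _, hl⟩
    · rw [dif_neg hi, if_neg, card_univ]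
      intro h
      obtain ⟨l, -, hl⟩ := mem_image.1 h
      exact hi ⟨l, hl⟩
  rw [prod_congr rfl fun i _ => h2 i, prod_ite, prod_const_one, one_mul, prod_const]
  congr 1
  have h3 : univ.filter (fun i => i ∉ univ.image b) = (univ.image b)ᶜ := by
    ext i
    simp
  rw [h3, card_compl, Fintype.card_fin, card_image_of_injective _ hb, card_univ, Fintype.card_fin]

open Classical in
theorem card_comp {b : Fin r → Fin M} (hb : Function.Injective b) (B : Finset (Fin r → U)) :
    (univ.filter (fun F : Fin M → U => F ∘ b ∈ B)).card * Fintype.card U ^ r =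
      B.card * Fintype.card U ^ M := by
  have h1 : (univ.filter (fun F : Fin M → U => F ∘ b ∈ B)).card =
      ∑ G ∈ B, (univ.filter (fun F : Fin M → U => F ∘ b = G)).card := by
    rw [card_eq_sum_card_fiberwise (f := fun F : Fin M → U => F ∘ b) (t := B)
      (fun F hF => by simpa using hF)]
    refine sum_congr rfl fun G hG => ?_
    congr 1
    ext F
    simp only [mem_filter, mem_univ, true_and]
    exact ⟨fun h => h.2, fun h => ⟨by rw [h]; exact hG, h⟩⟩
  have hr : r ≤ M := by
    have := Fintype.card_le_of_injective b hb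
    rwa [Fintype.card_fin, Fintype.card_fin] at this
  rw [h1, sum_congr rfl fun G _ => card_fiber hb G, sum_const, smul_eq_mul, mul_assoc, ← pow_add,
    Nat.sub_add_cancel hr]

end Count

variable {V K Al : Type} [Fintype V] [DecidableEq V]

open Classical in
/-- The density of the accepted patterns is bounded in terms of the density of the accepted
mixtures. -/
theorem density [Field K] {d t : ℕ} {f : (V → Al) → K}
    (p : V → Fin t) (hP : ∀ j, Rk d f (univ.filter (fun v => p v = j))) {U : Type} [Fintype U]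
    [Nonempty U] (z : U → V → Al) {M : ℕ} (hM : 1 ≤ M) :
    ((univ.filter (fun A : U => f (z A) ≠ 0)).card : ℝ) / Fintype.card U ≤
      t * d / M + M ^ t *
        (((univ.filter (fun b : Fin t → U => f (mixp p z b) ≠ 0)).card : ℝ) /
          Fintype.card U ^ t) := by
  obtain ⟨S, hS⟩ : ∃ S, S = univ.filter (fun A : U => f (z A) ≠ 0) := ⟨_, rfl⟩
  obtain ⟨B, hB⟩ : ∃ B, B = univ.filter (fun b : Fin t → U => f (mixp p z b) ≠ 0) := ⟨_, rfl⟩
  rw [← hS, ← hB]
  obtain ⟨I, hI⟩ : ∃ I : Finset (Fin t → Fin M), I = univ.filter (fun b => Function.Injective b) :=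
    ⟨_, rfl⟩
  have key : ∀ F : Fin M → U, (univ.filter (fun i => F i ∈ S)).card ≤
      t * d + M * (I.filter (fun b => F ∘ b ∈ B)).card := by
    intro F
    by_cases h : ∃ b ∈ I, F ∘ b ∈ B
    · obtain ⟨b, hb, hbB⟩ := h
      have h1 : 1 ≤ (I.filter (fun b => F ∘ b ∈ B)).card :=
        card_pos.2 ⟨b, mem_filter.2 ⟨hb, hbB⟩⟩
      have h2 := card_le_univ (univ.filter (fun i => F i ∈ S))
      rw [Fintype.card_fin] at h2
      nlinarith
    · push Not at h
      refine le_trans ?_ (Nat.le_add_right _ _)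
      refine replacement p hP _ (fun i => z (F i)) (fun i hi => ?_) (fun b hb hinj => ?_)
      · have h1 := (mem_filter.1 hi).2
        rw [hS] at h1
        exact (mem_filter.1 h1).2
      · have h1 := h b (by rw [hI]; exact mem_filter.2 ⟨mem_univ _, hinj⟩)
        rw [hB, mem_filter, not_and, not_not] at h1
        exact h1 (mem_univ _)
  have hu : (0 : ℝ) < Fintype.card U := by exact_mod_cast Fintype.card_pos
  obtain ⟨u, hu'⟩ : ∃ u, u = (Fintype.card U : ℝ) := ⟨_, rfl⟩
  rw [← hu'] at hu ⊢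
  -- the sum over all `F`
  have h1 : (∑ F : Fin M → U, ((univ.filter (fun i => F i ∈ S)).card : ℝ)) =
      M * (S.card * u ^ M / u) := by
    have e1 : (∑ F : Fin M → U, ((univ.filter (fun i => F i ∈ S)).card : ℝ)) =
        ∑ i : Fin M, ((univ.filter (fun F : Fin M → U => F i ∈ S)).card : ℝ) := by
      simp only [card_filter, Nat.cast_sum]
      exact sum_comm
    rw [e1]
    have e2 : ∀ i : Fin M, ((univ.filter (fun F : Fin M → U => F i ∈ S)).card : ℝ) =
        S.card * u ^ M / u := by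
      intro i
      have e3 := card_comp (r := 1) (M := M) (b := fun _ => i)
        (fun _ _ _ => Subsingleton.elim _ _) (Fintype.piFinset (fun _ : Fin 1 => S))
      have e4 : univ.filter (fun F : Fin M → U => F ∘ (fun _ : Fin 1 => i) ∈
          Fintype.piFinset (fun _ : Fin 1 => S)) = univ.filter (fun F : Fin M → U => F i ∈ S) := by
        refine filter_congr fun F _ => ?_
        rw [Fintype.mem_piFinset]
        exact ⟨fun h => h 0, fun h _ => h⟩
      rw [e4, Fintype.card_piFinset, prod_const, card_univ, Fintype.card_fin, pow_one,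
        pow_one] at e3
      rw [eq_div_iff hu.ne', hu']
      exact_mod_cast e3
    rw [sum_congr rfl fun i _ => e2 i, sum_const, card_univ, Fintype.card_fin, nsmul_eq_mul]
  have h2 : (∑ F : Fin M → U, ((I.filter (fun b => F ∘ b ∈ B)).card : ℝ)) ≤
      M ^ t * (B.card * u ^ M / u ^ t) := by
    have e1 : (∑ F : Fin M → U, ((I.filter (fun b => F ∘ b ∈ B)).card : ℝ)) =
        ∑ b ∈ I, ((univ.filter (fun F : Fin M → U => F ∘ b ∈ B)).card : ℝ) := by
      simp only [card_filter, Nat.cast_sum]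
      exact sum_comm
    rw [e1]
    have e2 : ∀ b ∈ I, ((univ.filter (fun F : Fin M → U => F ∘ b ∈ B)).card : ℝ) =
        B.card * u ^ M / u ^ t := by
      intro b hb
      rw [hI] at hb
      have e3 := card_comp (U := U) (mem_filter.1 hb).2 B
      rw [eq_div_iff (pow_pos hu t).ne', hu']
      exact_mod_cast e3
    rw [sum_congr rfl e2, sum_const, nsmul_eq_mul]
    refine mul_le_mul_of_nonneg_right ?_ (by positivity)
    have e4 : I.card ≤ M ^ t := by
      have := card_le_univ I
      rwa [Fintype.card_fun, Fintype.card_fin, Fintype.card_fin] at this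
    exact_mod_cast e4
  have h3 : (∑ F : Fin M → U, ((univ.filter (fun i => F i ∈ S)).card : ℝ)) ≤
      ∑ F : Fin M → U, ((t * d : ℝ) + M * ((I.filter (fun b => F ∘ b ∈ B)).card : ℝ)) := by
    refine sum_le_sum fun F _ => ?_
    have := key F
    exact_mod_cast this
  have h3' : ∑ F : Fin M → U, ((t * d : ℝ) + M * ((I.filter (fun b => F ∘ b ∈ B)).card : ℝ)) =
      u ^ M * (t * d) + M * ∑ F : Fin M → U, ((I.filter (fun b => F ∘ b ∈ B)).card : ℝ) := by
    rw [sum_add_distrib, sum_const, ← mul_sum, card_univ, Fintype.card_fun, Fintype.card_fin,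
      nsmul_eq_mul, hu']
    push_cast
    ring
  rw [h1, h3'] at h3
  have h4 : (M : ℝ) * (S.card * u ^ M / u) ≤ u ^ M * (t * d) +
      M * (M ^ t * (B.card * u ^ M / u ^ t)) :=
    h3.trans (add_le_add le_rfl (mul_le_mul_of_nonneg_left h2 (Nat.cast_nonneg _)))
  have hM0 : (0 : ℝ) < M := by exact_mod_cast hM
  have huM : 0 < u ^ M := pow_pos hu M
  have h5 : (S.card : ℝ) / u * (M * u ^ M) ≤
      (t * d / M + M ^ t * (B.card / u ^ t)) * (M * u ^ M) := by
    calc (S.card : ℝ) / u * (M * u ^ M) = M * (S.card * u ^ M / u) := by ring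
      _ ≤ _ := h4
      _ = _ := by
        field_simp
  exact le_of_mul_le_mul_right h5 (by positivity)

/-- The bound for random networks. -/
theorem rand_density (μ : ℕ) (R : Type) [Fintype R] [Nonempty R]
    (K W : R → Type) [∀ ρ, Field (K ρ)] [∀ ρ, Fintype (W ρ)]
    (T : ∀ ρ, Net (K ρ) V Al (W ρ)) (a : ∀ ρ, W ρ → K ρ) (h1 : ∀ ρ v, (T ρ).reads v ≤ 1)
    {θ t : ℕ} (hθ : 1 ≤ θ) (ht1 : 1 ≤ t) (hE : 2 * Fintype.card V + θ ≤ θ * t)
    {U : Type} [Fintype U] [Nonempty U] (z : U → V → Al) (Y : Finset U) {η : ℕ}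
    (hY : Fintype.card U ≤ 2 ^ η * Y.card)
    (hc : ∀ A ∈ Y, Nat.card R ≤ 2 ^ μ * Nat.card {ρ // (T ρ).value (a ρ) (z A) ≠ 0})
    {N : ℕ} (hmix : ∀ (ρ : R) (p : V → Fin t),
      (∀ j, (univ.filter (fun v => p v = j)).card ≤ 2 * θ) → ∃ B : Finset (Fin t → U),
        (∀ b, (T ρ).value (a ρ) (mixp p z b) ≠ 0 → b ∈ B) ∧ B.card * N ≤ Fintype.card U ^ t) :
    ∃ ρ, N ≤ (2 ^ (μ + η + 1) * (t * Fintype.card (W ρ) ^ 3)) ^ (t + 1) ∧
      1 ≤ Fintype.card (W ρ) := by
  classical
  -- a network which accepts many patterns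
  obtain ⟨ρ, hρ⟩ : ∃ ρ : R, Y.card ≤ 2 ^ μ *
      (univ.filter (fun A : U => (T ρ).value (a ρ) (z A) ≠ 0)).card := by
    by_contra hcon
    push Not at hcon
    have h3 : ∑ ρ : R, 2 ^ μ * (univ.filter (fun A : U => (T ρ).value (a ρ) (z A) ≠ 0)).card <
        Fintype.card R * Y.card := by
      calc _ < ∑ _ρ : R, Y.card := sum_lt_sum_of_nonempty univ_nonempty (fun ρ _ => hcon ρ)
        _ = _ := by rw [sum_const, card_univ, smul_eq_mul]
    have h4 : Fintype.card R * Y.card ≤ ∑ ρ : R, 2 ^ μ *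
        (univ.filter (fun A : U => (T ρ).value (a ρ) (z A) ≠ 0)).card := by
      have h5 : ∑ ρ : R, (univ.filter (fun A : U => (T ρ).value (a ρ) (z A) ≠ 0)).card =
          ∑ A : U, (univ.filter (fun ρ : R => (T ρ).value (a ρ) (z A) ≠ 0)).card := by
        simp only [card_filter]
        exact sum_comm
      rw [← mul_sum, h5, mul_sum, mul_comm, ← smul_eq_mul, ← sum_const]
      refine le_trans (sum_le_sum (fun A hA => ?_)) (sum_le_sum_of_subset (subset_univ Y))
      have h6 := hc A hA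
      rw [Nat.card_eq_fintype_card, Nat.card_eq_fintype_card, Fintype.card_subtype] at h6
      exact h6
    omega
  obtain ⟨S, hS⟩ : ∃ S, S = univ.filter (fun A : U => (T ρ).value (a ρ) (z A) ≠ 0) := ⟨_, rfl⟩
  rw [← hS] at hρ
  have hYpos : 0 < Y.card := by
    rcases Nat.eq_zero_or_pos Y.card with h0 | h0
    · rw [h0, mul_zero] at hY
      have := Fintype.card_pos (α := U)
      omega
    · exact h0
  have hSpos : 0 < S.card := by
    rcases Nat.eq_zero_or_pos S.card with h0 | h0
    · rw [h0, mul_zero] at hρ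
      omega
    · exact h0
  have hW : Nonempty (W ρ) := by
    by_contra hW
    rw [not_nonempty_iff] at hW
    obtain ⟨A, hA⟩ := card_pos.1 hSpos
    rw [hS] at hA
    refine (mem_filter.1 hA).2 ?_
    unfold Net.value
    simp
  obtain ⟨w, hw⟩ : ∃ w, w = Fintype.card (W ρ) := ⟨_, rfl⟩
  have hw1 : 1 ≤ w := by
    rw [hw]
    exact Fintype.card_pos
  refine ⟨ρ, ?_, Fintype.card_pos⟩
  -- the partition
  obtain ⟨T', g1, g2, -⟩ := exists_ext (T ρ) (h1 ρ)
  have hval : ∀ x, T'.value (a ρ) x = (T ρ).value (a ρ) x := by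
    intro x
    unfold Net.value
    rw [g2]
  have hR : ∀ A ∈ cutsv T', Rk w (fun x => (T ρ).value (a ρ) x) A := by
    intro A hA
    have h2 := rk_of_cut (cutsv_cut T' (a ρ) (fun v => (g1 v).le) A hA)
    have h3 : (fun x => T'.value (a ρ) x) = fun x => (T ρ).value (a ρ) x := funext hval
    rwa [h3, ← hw] at h2
  obtain ⟨P, q1, q2, q3⟩ := exists_parts hw1 (univ : Finset V) hθ T' g1 hR
    (by rwa [card_univ])
  choose p hp using q3
  have hpP : ∀ j, univ.filter (fun v => p v = j) = P j := by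
    intro j
    ext v
    rw [mem_filter]
    constructor
    · rintro ⟨-, h⟩
      rw [← h]
      exact hp v
    · intro hv
      refine ⟨mem_univ v, ?_⟩
      by_contra hne
      exact disjoint_left.1 (q2 _ _ hne) (hp v) hv
  obtain ⟨B, hB1, hB2⟩ := hmix ρ p (fun j => by
    rw [hpP]
    have := (q1 j).2.2
    rwa [univ_inter] at this)
  obtain ⟨d, hd⟩ : ∃ d, d = w ^ 3 := ⟨_, rfl⟩
  have hd1 : 1 ≤ d := by
    rw [hd]
    exact Nat.pow_pos hw1
  obtain ⟨M, hM⟩ : ∃ M, M = 2 ^ (μ + η + 1) * (t * d) := ⟨_, rfl⟩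
  have hM1 : 1 ≤ M := by
    rw [hM]
    exact Nat.mul_pos (Nat.pow_pos (by norm_num)) (Nat.mul_pos ht1 hd1)
  have hdens := density (f := fun x => (T ρ).value (a ρ) x) (d := d) p (fun j => by
    rw [hpP]
    have h2 := (q1 j).2.1
    have h3 : w * (w * w) = d := by rw [hd]; ring
    rwa [h3] at h2) z hM1
  rw [← hS] at hdens
  have hu : (0 : ℝ) < Fintype.card U := by exact_mod_cast Fintype.card_pos
  obtain ⟨u, hu'⟩ : ∃ u, u = (Fintype.card U : ℝ) := ⟨_, rfl⟩
  rw [← hu'] at hu hdens
  have hBr : ((univ.filter (fun b : Fin t → U => (T ρ).value (a ρ) (mixp p z b) ≠ 0)).card : ℝ) /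
      u ^ t * N ≤ 1 := by
    have e1 : (univ.filter (fun b : Fin t → U => (T ρ).value (a ρ) (mixp p z b) ≠ 0)).card ≤
        B.card := card_le_card fun b hb => hB1 b (mem_filter.1 hb).2
    have e2 : ((univ.filter (fun b : Fin t → U => (T ρ).value (a ρ) (mixp p z b) ≠ 0)).card : ℝ) *
        N ≤ u ^ t := by
      rw [hu']
      exact_mod_cast (Nat.mul_le_mul_right N e1).trans hB2
    rw [div_mul_eq_mul_div, div_le_one (pow_pos hu t)]
    exact e2
  have hden2 : 1 / (2 : ℝ) ^ (μ + η) ≤ (S.card : ℝ) / u := by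
    rw [div_le_div_iff₀ (by positivity) hu]
    have e1 : Fintype.card U ≤ 2 ^ η * (2 ^ μ * S.card) := hY.trans (Nat.mul_le_mul_left _ hρ)
    have e2 : u ≤ 2 ^ η * (2 ^ μ * S.card) := by
      rw [hu']
      exact_mod_cast e1
    rw [one_mul]
    refine e2.trans (le_of_eq ?_)
    rw [pow_add]
    ring
  have hM0 : (0 : ℝ) < M := by exact_mod_cast hM1
  have htd : (t : ℝ) * d / M = 1 / 2 ^ (μ + η + 1) := by
    have ht0 : (t : ℝ) ≠ 0 := by exact_mod_cast (by omega : t ≠ 0)
    have hd0 : (d : ℝ) ≠ 0 := by exact_mod_cast (by omega : d ≠ 0)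
    rw [hM]
    push_cast
    field_simp
  have hfin : 1 / (2 : ℝ) ^ (μ + η + 1) ≤ M ^ t *
      (((univ.filter (fun b : Fin t → U => (T ρ).value (a ρ) (mixp p z b) ≠ 0)).card : ℝ) /
          u ^ t) := by
    have e1 := hden2.trans hdens
    rw [htd] at e1
    have e2 : 1 / (2 : ℝ) ^ (μ + η) = 1 / 2 ^ (μ + η + 1) + 1 / 2 ^ (μ + η + 1) := by
      rw [pow_succ]
      field_simp
      norm_num
    linarith
  have hN : (N : ℝ) * (1 / (2 : ℝ) ^ (μ + η + 1)) ≤ M ^ t := by
    calc (N : ℝ) * (1 / (2 : ℝ) ^ (μ + η + 1)) ≤ N * (M ^ t *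
        (((univ.filter (fun b : Fin t → U => (T ρ).value (a ρ) (mixp p z b) ≠ 0)).card : ℝ) /
          u ^ t)) := mul_le_mul_of_nonneg_left hfin (Nat.cast_nonneg _)
      _ = M ^ t * ((((univ.filter (fun b : Fin t → U =>
          (T ρ).value (a ρ) (mixp p z b) ≠ 0)).card : ℝ) / u ^ t) * N) := by ring
      _ ≤ M ^ t * 1 := mul_le_mul_of_nonneg_left hBr (by positivity)
      _ = _ := mul_one _
  have hN2 : (N : ℝ) ≤ (M : ℝ) ^ t * 2 ^ (μ + η + 1) := by
    rw [mul_one_div, div_le_iff₀ (by positivity)] at hN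
    exact hN
  have hN3 : N ≤ M ^ t * 2 ^ (μ + η + 1) := by exact_mod_cast hN2
  rw [← hw, ← hd, ← hM, pow_succ]
  refine hN3.trans (Nat.mul_le_mul_left _ ?_)
  rw [hM]
  exact Nat.le_mul_of_pos_right _ (Nat.mul_pos ht1 hd1)

end Pool.Agent.TH700.PA
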