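import Mathlib.SetTheory.Cardinal.Finite
import Mathlib.Data.Fintype.Pi

/-!
# 2-to-1 games on complete bipartite graphs
-/

set_option autoImplicit false

namespace Pool.Agent.TH700.PA

/-- The maps of the set of labels into itself for which every fiber has at most two elements. -/
def TwoToOne (q : ℕ) : Type := {f : Fin q → Fin q // ∀ b, Nat.card {a // f a = b} ≤ 2}

/-- The labeling `LU`, `LV` satisfies the edge `e` of the game `x`: a constraint map for every pair
of a left and a right vertex. -/
def Satd {n q : ℕ} (x : Fin n × Fin n → TwoToOne q) (LU LV : Fin n → Fin q) (e : Fin n × Fin n) :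
    Prop :=
  (x e).1 (LU e.1) = LV e.2

/-- The game has value 1. -/
def ValueOne {n q : ℕ} (x : Fin n × Fin n → TwoToOne q) : Prop :=
  ∃ LU LV : Fin n → Fin q, ∀ e, Satd x LU LV e

/-- The game has value at most `1 / g`. -/
def ValueLe {n q : ℕ} (g : ℕ) (x : Fin n × Fin n → TwoToOne q) : Prop :=
  ∀ LU LV : Fin n → Fin q, g * Nat.card {e // Satd x LU LV e} ≤ n * n

end Pool.Agent.TH700.PA
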