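import Pool.Agent.TH700.PA.Games
import Mathlib.Data.Nat.Choose.Bounds

/-!
# Tensor networks for satisfiable 2-to-1 games
-/

set_option autoImplicit false

open Finset

namespace Pool.Agent.TH700.PA

variable {n q t : ℕ}

theorem card_lab : Fintype.card (Vx n → Fin q) = q ^ (2 * n) := by
  rw [Fintype.card_fun, Fintype.card_sum, Fintype.card_fin, Fintype.card_fin, two_mul]

/-- Most mixtures have small value. -/
theorem few_bad {g y : ℕ} (hg : 1 ≤ g) (hn : 16 * g ≤ n) (hy : 16 * g * y ≤ n)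
    (ht : t = 2048 * g ^ 2 + 1) (hq : 2 ^ (t + 2) + 1 ≤ q) (p : Fin n × Fin n → Fin t)
    (hb : ∀ j, (univ.filter (fun e => p e = j)).card ≤ 2 * y ^ 2) :
    ∃ B : Finset (Fin t → Pat n q), (∀ b, ¬ ValueLe g (mixp p gm b) → b ∈ B) ∧
      B.card * 2 ^ (2 * n) ≤ Fintype.card (Pat n q) ^ t := by
  classical
  have hn1 : 1 ≤ n := by omega
  obtain ⟨s, hs⟩ : ∃ s, s = n * n / (2 * g) := ⟨_, rfl⟩
  obtain ⟨C, hC⟩ : ∃ C, C = Fintype.card (Pat n q) ^ t := ⟨_, rfl⟩
  rw [← hC]
  let X1 : (Vx n → Fin q) → Finset (Fin t → Pat n q) := fun β =>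
    (powersetCard (4 * n) (univ : Finset (Fin t × Vx n))).biUnion (fun S =>
      univ.filter (fun b : Fin t → Pat n q => ∀ s ∈ S, (b s.1).1 s.2 = β s.2))
  let X2 : (Vx n → Fin q) → Finset (Fin t → Pat n q) := fun β =>
    (powersetCard s (univ : Finset (Fin n × Fin n))).biUnion (fun S =>
      univ.filter (fun b : Fin t → Pat n q => ∀ e ∈ S, Ac p b β e))
  refine ⟨univ.biUnion (fun β : Vx n → Fin q => X1 β ∪ X2 β), fun b hval => ?_, ?_⟩
  · unfold ValueLe at hval
    push Not at hval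
    obtain ⟨LU, LV, hlt⟩ := hval
    rw [mem_biUnion]
    refine ⟨Sum.elim LU LV, mem_univ _, ?_⟩
    obtain ⟨β, hβ⟩ : ∃ β : Vx n → Fin q, β = Sum.elim LU LV := ⟨_, rfl⟩
    rw [← hβ]
    have h1 : Nat.card {e // Satd (mixp p gm b) LU LV e} ≤
        (univ.filter (fun e => Ag p b β e)).card + (univ.filter (fun e => Ac p b β e)).card := by
      rw [Nat.card_eq_fintype_card, Fintype.card_subtype]
      refine le_trans (card_le_card fun e he => ?_) (card_union_le _ _)
      rw [mem_union, mem_filter, mem_filter]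
      have h2 := (mem_filter.1 he).2
      have h3 : Satd (mixp p gm b) (fun u => β (Sum.inl u)) (fun v => β (Sum.inr v)) e := by
        rw [hβ]
        exact h2
      exact (satd_cases h3).imp (fun h => ⟨mem_univ _, h⟩) fun h => ⟨mem_univ _, h⟩
    obtain ⟨A, hA⟩ : ∃ A, A = (univ.filter (fun e => Ag p b β e)).card := ⟨_, rfl⟩
    obtain ⟨Z, hZ⟩ : ∃ Z, Z = (univ.filter (fun e => Ac p b β e)).card := ⟨_, rfl⟩
    have h2 := card_ag p hb b β
    rw [← hA, ← hZ] at h1
    rw [← hA] at h2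
    have h3 : n * n < g * (A + Z) := lt_of_lt_of_le hlt (Nat.mul_le_mul_left _ h1)
    rw [mem_union]
    rcases Nat.lt_or_ge (n * n) (2 * g * A) with h4 | h4
    · left
      have h5 : 4 * n ≤ (Co b β).card := by
        by_contra hcon
        rw [not_le] at hcon
        obtain ⟨k, hk⟩ : ∃ k, k = (Co b β).card := ⟨_, rfl⟩
        rw [← hk] at hcon h2
        have h6 : 2 * g * A ≤ 2 * g * (2 * y * k) := Nat.mul_le_mul_left _ h2
        have h7 : 4 * (n * n) < 4 * (2 * g * (2 * y * k)) := by omega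
        have h8 : 4 * (2 * g * (2 * y * k)) = (16 * g * y) * k := by ring
        have h9 : (16 * g * y) * k ≤ n * (4 * n) := Nat.mul_le_mul hy hcon.le
        rw [h8] at h7
        have h10 : n * (4 * n) = 4 * (n * n) := by ring
        omega
      obtain ⟨S, hS, hSc⟩ := exists_subset_card_eq h5
      show b ∈ X1 β
      rw [mem_biUnion]
      refine ⟨S, mem_powersetCard.2 ⟨subset_univ _, hSc⟩, mem_filter.2 ⟨mem_univ _, ?_⟩⟩
      intro r hr
      exact (mem_filter.1 (hS hr)).2
    · right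
      have h5 : s ≤ (univ.filter (fun e => Ac p b β e)).card := by
        rw [← hZ, hs]
        refine Nat.div_le_of_le_mul ?_
        have h6 : g * (A + Z) = g * A + g * Z := by ring
        have h7 : 2 * g * A = 2 * (g * A) := by ring
        have h8 : 2 * g * Z = 2 * (g * Z) := by ring
        rw [h8]
        omega
      obtain ⟨S, hS, hSc⟩ := exists_subset_card_eq h5
      show b ∈ X2 β
      rw [mem_biUnion]
      refine ⟨S, mem_powersetCard.2 ⟨subset_univ _, hSc⟩, mem_filter.2 ⟨mem_univ _, ?_⟩⟩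
      intro r hr
      exact (mem_filter.1 (hS hr)).2
  · obtain ⟨G, hG⟩ : ∃ G, G = q ^ (2 * n) * 2 ^ (2 * n + 1) := ⟨_, rfl⟩
    have hq1 : 1 ≤ q := by
      have : 0 < 2 ^ (t + 2) := by positivity
      omega
    have hX1 : ∀ β, (X1 β).card * G ≤ C := by
      intro β
      have h1 : (X1 β).card * q ^ (4 * n) ≤ 2 ^ (2 * t * n) * C := by
        calc (X1 β).card * q ^ (4 * n) ≤
            (∑ S ∈ powersetCard (4 * n) (univ : Finset (Fin t × Vx n)),
              (univ.filter (fun b : Fin t → Pat n q =>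
                ∀ s ∈ S, (b s.1).1 s.2 = β s.2)).card) * q ^ (4 * n) :=
              Nat.mul_le_mul_right _ card_biUnion_le
          _ = ∑ S ∈ powersetCard (4 * n) (univ : Finset (Fin t × Vx n)),
              (univ.filter (fun b : Fin t → Pat n q =>
                ∀ s ∈ S, (b s.1).1 s.2 = β s.2)).card * q ^ (4 * n) := by rw [sum_mul]
          _ ≤ ∑ _S ∈ powersetCard (4 * n) (univ : Finset (Fin t × Vx n)), C := by
              refine sum_le_sum fun S hS => ?_
              have h2 := card_coinc (q := q) β S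
              rw [(mem_powersetCard.1 hS).2, ← hC] at h2
              exact h2
          _ = (powersetCard (4 * n) (univ : Finset (Fin t × Vx n))).card * C := by
              rw [sum_const, smul_eq_mul]
          _ ≤ _ := by
              refine Nat.mul_le_mul_right _ ?_
              rw [card_powersetCard]
              refine (Nat.choose_le_two_pow _ _).trans (le_of_eq ?_)
              rw [card_univ, Fintype.card_prod, Fintype.card_sum, Fintype.card_fin,
                Fintype.card_fin]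
              congr 1
              ring
      have h2 : 2 ^ (2 * t * n) * G ≤ q ^ (4 * n) := by
        have h3 : 2 ^ (2 * t * n) * 2 ^ (2 * n + 1) ≤ q ^ (2 * n) := by
          calc 2 ^ (2 * t * n) * 2 ^ (2 * n + 1) = 2 ^ (2 * t * n + (2 * n + 1)) :=
                (pow_add 2 _ _).symm
            _ ≤ 2 ^ ((t + 2) * (2 * n)) := by
                refine Nat.pow_le_pow_right (by norm_num) ?_
                have : (t + 2) * (2 * n) = 2 * t * n + 4 * n := by ring
                omega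
            _ = (2 ^ (t + 2)) ^ (2 * n) := by rw [pow_mul]
            _ ≤ q ^ (2 * n) := Nat.pow_le_pow_left (by omega) _
        calc 2 ^ (2 * t * n) * G = q ^ (2 * n) * (2 ^ (2 * t * n) * 2 ^ (2 * n + 1)) := by
              rw [hG]; ring
          _ ≤ q ^ (2 * n) * q ^ (2 * n) := Nat.mul_le_mul_left _ h3
          _ = q ^ (4 * n) := by rw [← pow_add]; congr 1; ring
      refine Nat.le_of_mul_le_mul_left (c := 2 ^ (2 * t * n)) ?_ (by positivity)
      calc 2 ^ (2 * t * n) * ((X1 β).card * G) = (X1 β).card * (2 ^ (2 * t * n) * G) := by ring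
        _ ≤ (X1 β).card * q ^ (4 * n) := Nat.mul_le_mul_left _ h2
        _ ≤ _ := h1
    have hX2 : ∀ β, (X2 β).card * G ≤ C := by
      intro β
      have h1 : (X2 β).card * (q - 1) ^ s ≤ 2 ^ (n * n) * C := by
        calc (X2 β).card * (q - 1) ^ s ≤
            (∑ S ∈ powersetCard s (univ : Finset (Fin n × Fin n)),
              (univ.filter (fun b : Fin t → Pat n q => ∀ e ∈ S, Ac p b β e)).card) *
                (q - 1) ^ s := Nat.mul_le_mul_right _ card_biUnion_le
          _ = ∑ S ∈ powersetCard s (univ : Finset (Fin n × Fin n)),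
              (univ.filter (fun b : Fin t → Pat n q => ∀ e ∈ S, Ac p b β e)).card *
                (q - 1) ^ s := by rw [sum_mul]
          _ ≤ ∑ _S ∈ powersetCard s (univ : Finset (Fin n × Fin n)), C := by
              refine sum_le_sum fun S hS => ?_
              have h2 := card_accid (q := q) p β S
              rw [(mem_powersetCard.1 hS).2, ← hC] at h2
              exact h2
          _ = (powersetCard s (univ : Finset (Fin n × Fin n))).card * C := by
              rw [sum_const, smul_eq_mul]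
          _ ≤ _ := by
              refine Nat.mul_le_mul_right _ ?_
              rw [card_powersetCard]
              refine (Nat.choose_le_two_pow _ _).trans (le_of_eq ?_)
              rw [card_univ, Fintype.card_prod, Fintype.card_fin]
      have h2 : 2 ^ (n * n) * G ≤ (q - 1) ^ s := by
        obtain ⟨Q, hQ⟩ : ∃ Q, Q = q - 1 := ⟨_, rfl⟩
        have hQ1 : 2 ^ (t + 2) ≤ Q := by omega
        have hQ0 : 1 ≤ Q := le_trans Nat.one_le_two_pow hQ1
        have hq2 : q ≤ 2 * Q := by omega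
        -- the exponent
        have h3 : n * n < 2 * g * (s + 1) := by
          rw [hs]
          exact Nat.lt_mul_div_succ _ (by omega)
        have hgn : 16 * (g * n) ≤ n * n := by
          calc 16 * (g * n) = (16 * g) * n := by ring
            _ ≤ n * n := Nat.mul_le_mul_right _ hn
        have h4 : 2 * g * (s + 1) = 2 * (g * s) + 2 * g := by ring
        have h5 : g ≤ g * n := Nat.le_mul_of_pos_right _ hn1
        have h6 : 2 * n ≤ s := by
          by_contra hcon
          rw [not_le] at hcon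
          have h7 : g * s ≤ g * (2 * n) := Nat.mul_le_mul_left _ hcon.le
          have h8 : g * (2 * n) = 2 * (g * n) := by ring
          omega
        obtain ⟨r, hr⟩ := Nat.exists_eq_add_of_le h6
        have h7 : n * n ≤ 4 * (g * r) := by
          have h8 : g * s = 2 * (g * n) + g * r := by rw [hr]; ring
          omega
        have h8 : n * n + (4 * n + 1) ≤ (t + 2) * r := by
          have h9 : n ≤ n * n := Nat.le_mul_of_pos_right _ hn1
          have h10 : 2048 * (g * r) ≤ (t + 2) * r := by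
            rw [ht]
            have : g ≤ g ^ 2 := by nlinarith
            nlinarith
          omega
        calc 2 ^ (n * n) * G = 2 ^ (n * n) * (q ^ (2 * n) * 2 ^ (2 * n + 1)) := by rw [hG]
          _ ≤ 2 ^ (n * n) * ((2 * Q) ^ (2 * n) * 2 ^ (2 * n + 1)) :=
              Nat.mul_le_mul_left _ (Nat.mul_le_mul_right _ (Nat.pow_le_pow_left hq2 _))
          _ = 2 ^ (n * n + (4 * n + 1)) * Q ^ (2 * n) := by
              rw [mul_pow, pow_add 2 (n * n) (4 * n + 1),
                show 4 * n + 1 = 2 * n + (2 * n + 1) by ring, pow_add 2 (2 * n) (2 * n + 1)]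
              ring
          _ ≤ 2 ^ ((t + 2) * r) * Q ^ (2 * n) :=
              Nat.mul_le_mul_right _ (Nat.pow_le_pow_right (by norm_num) h8)
          _ = (2 ^ (t + 2)) ^ r * Q ^ (2 * n) := by rw [pow_mul]
          _ ≤ Q ^ r * Q ^ (2 * n) := Nat.mul_le_mul_right _ (Nat.pow_le_pow_left hQ1 _)
          _ = Q ^ s := by rw [← pow_add, hr, add_comm]
          _ = _ := by rw [hQ]
      refine Nat.le_of_mul_le_mul_left (c := 2 ^ (n * n)) ?_ (by positivity)
      calc 2 ^ (n * n) * ((X2 β).card * G) = (X2 β).card * (2 ^ (n * n) * G) := by ring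
        _ ≤ (X2 β).card * (q - 1) ^ s := Nat.mul_le_mul_left _ h2
        _ ≤ _ := h1
    have hqn : 0 < q ^ (2 * n) := Nat.pow_pos hq1
    have h3 : (univ.biUnion (fun β : Vx n → Fin q => X1 β ∪ X2 β)).card * G ≤
        q ^ (2 * n) * (2 * C) := by
      calc (univ.biUnion (fun β : Vx n → Fin q => X1 β ∪ X2 β)).card * G ≤
          (∑ β : Vx n → Fin q, (X1 β ∪ X2 β).card) * G := Nat.mul_le_mul_right _ card_biUnion_le
        _ = ∑ β : Vx n → Fin q, (X1 β ∪ X2 β).card * G := by rw [sum_mul]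
        _ ≤ ∑ _β : Vx n → Fin q, 2 * C := by
            refine sum_le_sum fun β _ => ?_
            have e1 : (X1 β ∪ X2 β).card * G ≤ ((X1 β).card + (X2 β).card) * G :=
              Nat.mul_le_mul_right _ (card_union_le _ _)
            rw [add_mul] at e1
            have e2 := hX1 β
            have e3 := hX2 β
            omega
        _ = _ := by rw [sum_const, card_univ, card_lab, smul_eq_mul]
    refine Nat.le_of_mul_le_mul_left (c := q ^ (2 * n) * 2) ?_ (Nat.mul_pos hqn (by norm_num))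
    calc q ^ (2 * n) * 2 * ((univ.biUnion (fun β : Vx n → Fin q => X1 β ∪ X2 β)).card *
          2 ^ (2 * n)) = (univ.biUnion (fun β : Vx n → Fin q => X1 β ∪ X2 β)).card * G := by
          rw [hG, pow_succ]; ring
      _ ≤ q ^ (2 * n) * (2 * C) := h3
      _ = _ := by ring

theorem main_game {g : ℕ} (hg : 1 ≤ g) : ∃ q₀ D : ℕ, ∀ q n : ℕ, q₀ ≤ q → D ≤ n →
    ∀ (μ : ℕ) (R : Type) [Fintype R] [Nonempty R] (K W : R → Type) [∀ ρ, Field (K ρ)]
      [∀ ρ, Fintype (W ρ)] (T : ∀ ρ, Net (K ρ) (Fin n × Fin n) (TwoToOne q) (W ρ))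
      (a : ∀ ρ, W ρ → K ρ),
      (∀ ρ e, (T ρ).reads e ≤ 1) →
      (∀ ρ x, ValueLe g x → (T ρ).value (a ρ) x = 0) →
      (∀ x, ValueOne x →
        Nat.card R ≤ 2 ^ μ * Nat.card {ρ // (T ρ).value (a ρ) x ≠ 0}) →
      ∃ ρ, 2 ^ n ≤ (2 ^ μ * Fintype.card (W ρ)) ^ D := by
  classical
  obtain ⟨t, ht⟩ : ∃ t, t = 2048 * g ^ 2 + 1 := ⟨_, rfl⟩
  refine ⟨2 ^ (t + 2) + 1, 16 * g + 3 * (t + 1) + (t + 1) * (t + 4),
    fun q n hq hn μ R _ _ K W _ _ T a h1 hno hyes => ?_⟩
  have hg2 : 1 ≤ g ^ 2 := Nat.one_le_pow _ _ hg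
  obtain ⟨y, hy⟩ : ∃ y, y = n / (16 * g) := ⟨_, rfl⟩
  have hy1 : 1 ≤ y := by
    rw [hy]
    exact Nat.div_pos (by omega) (by omega)
  have hyn : 16 * g * y ≤ n := by
    rw [hy]
    exact Nat.mul_div_le n _
  have hny : n < 16 * g * (y + 1) := by
    rw [hy]
    exact Nat.lt_mul_div_succ n (by omega)
  have hn1 : 1 ≤ n := by omega
  have hq0 : 1 ≤ q := by
    have : 0 < 2 ^ (t + 2) := by positivity
    omega
  have : Nonempty (Fin q) := ⟨⟨0, hq0⟩⟩
  have hM : Nonempty (TwoToOne q) := ⟨⟨id, fun b => by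
    have h2 : Nat.card {a : Fin q // id a = b} = 1 := by
      rw [Nat.card_eq_one_iff_unique]
      exact ⟨⟨fun u v => Subtype.ext (u.2.trans v.2.symm)⟩, ⟨⟨b, rfl⟩⟩⟩
    rw [h2]
    norm_num⟩⟩
  have hE : 2 * Fintype.card (Fin n × Fin n) + y ^ 2 ≤ y ^ 2 * t := by
    rw [Fintype.card_prod, Fintype.card_fin, ht]
    have e1 : n ≤ 32 * g * y := by nlinarith
    have e2 : n * n ≤ (32 * g * y) * (32 * g * y) := Nat.mul_le_mul e1 e1
    calc 2 * (n * n) + y ^ 2 ≤ 2 * ((32 * g * y) * (32 * g * y)) + y ^ 2 :=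
          Nat.add_le_add_right (Nat.mul_le_mul_left _ e2) _
      _ = _ := by ring
  obtain ⟨ρ, hρ, hw1⟩ := rand_density μ R K W T a h1 (θ := y ^ 2) (t := t)
    (Nat.one_le_pow _ _ hy1) (by omega) hE (U := Pat n q) gm
    (univ : Finset (Pat n q)) (η := 0) (by rw [card_univ, pow_zero, one_mul])
    (fun P _ => hyes _ (gm_valueOne P)) (N := 2 ^ (2 * n)) (fun ρ p hp => by
        obtain ⟨B, hB1, hB2⟩ := few_bad (q := q) hg (by omega) hyn ht hq p hp
        exact ⟨B, fun b hb => hB1 b fun hv => hb (hno ρ _ hv), hB2⟩)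
  refine ⟨ρ, ?_⟩
  obtain ⟨w, hw⟩ : ∃ w, w = Fintype.card (W ρ) := ⟨_, rfl⟩
  rw [← hw] at hρ hw1 ⊢
  obtain ⟨X, hX⟩ : ∃ X, X = 2 ^ μ * w := ⟨_, rfl⟩
  have hX1 : 1 ≤ X := by
    rw [hX]
    exact Nat.mul_pos (Nat.pow_pos (by norm_num)) hw1
  rw [← hX]
  have e1 : 2 ^ (μ + 0 + 1) * (t * w ^ 3) ≤ 2 ^ (t + 4) * X ^ 3 := by
    have e2 : t ≤ 2 ^ t := Nat.lt_two_pow_self.le
    have e3 : 2 ^ μ ≤ (2 ^ μ) ^ 3 := by
      conv_lhs => rw [← pow_one (2 ^ μ)]
      exact Nat.pow_le_pow_right (Nat.pow_pos (by norm_num)) (by norm_num)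
    calc 2 ^ (μ + 0 + 1) * (t * w ^ 3) = 2 * (2 ^ μ * (t * w ^ 3)) := by
          rw [add_zero, pow_succ]; ring
      _ ≤ 16 * ((2 ^ μ) ^ 3 * (2 ^ t * w ^ 3)) := by
        refine Nat.mul_le_mul (by norm_num) (Nat.mul_le_mul e3 (Nat.mul_le_mul_right _ e2))
      _ = _ := by rw [hX, pow_add]; ring
  have e4 : 2 ^ (2 * n) ≤ 2 ^ ((t + 4) * (t + 1)) * X ^ (3 * (t + 1)) := by
    calc 2 ^ (2 * n) ≤ (2 ^ (t + 4) * X ^ 3) ^ (t + 1) := hρ.trans (Nat.pow_le_pow_left e1 _)
      _ = _ := by rw [mul_pow, ← pow_mul, ← pow_mul]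
  have e5 : 2 ^ ((t + 4) * (t + 1)) ≤ 2 ^ n := by
    refine Nat.pow_le_pow_right (by norm_num) ?_
    have : (t + 4) * (t + 1) = (t + 1) * (t + 4) := mul_comm _ _
    omega
  have e6 : 2 ^ n ≤ X ^ (3 * (t + 1)) := by
    refine Nat.le_of_mul_le_mul_left (c := 2 ^ n) ?_ (by positivity)
    rw [← pow_add, show n + n = 2 * n by ring]
    exact e4.trans (Nat.mul_le_mul_right _ e5)
  exact e6.trans (Nat.pow_le_pow_right hX1 (by omega))

/-- Conversely the satisfying labelings are counted by linear networks. -/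
theorem upper_game (q : ℕ) {n : ℕ} (hn : 1 ≤ n) :
    ∃ (T : Net ℚ (Fin n × Fin n) (TwoToOne q) (Vx n → Fin q)) (a : (Vx n → Fin q) → ℚ),
      T.Linear ∧ (∀ e, T.reads e = 1) ∧ T.size = 2 * (n * n) - 1 ∧
        ∀ x, T.value a x ≠ 0 ↔ ValueOne x := by
  classical
  have : Nonempty (Fin n) := ⟨⟨0, hn⟩⟩
  obtain ⟨T, h1, h2, h3, h4⟩ := exists_product (K := ℚ)
    (fun (e : Fin n × Fin n) (ω : TwoToOne q) (β : Vx n → Fin q) =>
      if ω.1 (β (Sum.inl e.1)) = β (Sum.inr e.2) then (1 : ℚ) else 0)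
  refine ⟨T, fun _ => 1, h1, h2, ?_, fun x => ?_⟩
  · rw [h3, Fintype.card_prod, Fintype.card_fin]
  · have h5 : ∀ β : Vx n → Fin q, 0 ≤ T.eval x β ∧
        (T.eval x β ≠ 0 ↔ ∀ e, (x e).1 (β (Sum.inl e.1)) = β (Sum.inr e.2)) := by
      intro β
      rw [h4]
      refine ⟨prod_nonneg fun e _ => by split_ifs <;> norm_num, ?_⟩
      rw [prod_ne_zero_iff]
      constructor
      · intro h e
        by_contra hcon
        exact h e (mem_univ _) (if_neg hcon)
      · intro h e _
        rw [if_pos (h e)]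
        exact one_ne_zero
    unfold Net.value
    rw [Ne, sum_eq_zero_iff_of_nonneg (fun k _ => by
      rw [one_mul]
      exact (h5 k).1)]
    push Not
    constructor
    · rintro ⟨β, -, hβ⟩
      rw [one_mul] at hβ
      exact ⟨fun u => β (Sum.inl u), fun v => β (Sum.inr v), (h5 β).2.1 hβ⟩
    · rintro ⟨LU, LV, h⟩
      refine ⟨Sum.elim LU LV, mem_univ _, ?_⟩
      rw [one_mul]
      exact (h5 _).2.2 h

end Pool.Agent.TH700.PA
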