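import Pool.Agent.TH700.PA.GameDefs
import Mathlib.Logic.Equiv.Basic
import Mathlib.Algebra.Group.Action.Defs
import Mathlib.Algebra.Module.Defs
import Mathlib.Algebra.BigOperators.Ring.Finset
import Mathlib.Algebra.BigOperators.Field
import Mathlib.Algebra.Order.BigOperators.Group.Finset
import Mathlib.Data.Fintype.EquivFin

/-!
# Counting the maps with fibers of at most two elements
-/

set_option autoImplicit false

open Finset

namespace Pool.Agent.TH700.PA

variable {q : ℕ}

noncomputable instance : Fintype (TwoToOne q) := by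
  classical
  unfold TwoToOne
  infer_instance

/-- Composition with a permutation of the values. -/
def post (σ : Equiv.Perm (Fin q)) (ω : TwoToOne q) : TwoToOne q :=
  ⟨fun i => σ (ω.1 i), fun b => by
    have h1 : Nat.card {a // σ (ω.1 a) = b} = Nat.card {a // ω.1 a = σ.symm b} :=
      Nat.card_congr (Equiv.subtypeEquivRight fun a => by rw [Equiv.eq_symm_apply])
    rw [h1]
    exact ω.2 _⟩

/-- Composition with a permutation of the arguments. -/
def pre (σ : Equiv.Perm (Fin q)) (ω : TwoToOne q) : TwoToOne q :=
  ⟨fun i => ω.1 (σ i), fun b => by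
    have h1 : Nat.card {a // ω.1 (σ a) = b} = Nat.card {a // ω.1 a = b} :=
      Nat.card_congr (σ.subtypeEquiv fun a => Iff.rfl)
    rw [h1]
    exact ω.2 _⟩

theorem post_injective (σ : Equiv.Perm (Fin q)) : Function.Injective (post σ) := by
  intro ω ω' h
  refine Subtype.ext (funext fun i => ?_)
  have h1 := congrFun (congrArg Subtype.val h) i
  exact σ.injective h1

theorem pre_injective (σ : Equiv.Perm (Fin q)) : Function.Injective (pre σ) := by
  intro ω ω' h
  refine Subtype.ext (funext fun i => ?_)
  have h1 := congrFun (congrArg Subtype.val h) (σ.symm i)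
  have h2 : ω.1 (σ (σ.symm i)) = ω'.1 (σ (σ.symm i)) := h1
  rwa [Equiv.apply_symm_apply] at h2

/-- The two values are nearly independent. -/
theorem card_two {a a' : Fin q} (haa : a ≠ a') (c d : Fin q) :
    (q - 1) * (univ.filter (fun ω : TwoToOne q => ω.1 a = c ∧ ω.1 a' = d)).card ≤
      (univ.filter (fun ω : TwoToOne q => ω.1 a = c)).card := by
  classical
  by_cases hcd : d = c
  · subst hcd
    have h1 : ∀ a'' ∈ (univ : Finset (Fin q)).erase a,
        (univ.filter (fun ω : TwoToOne q => ω.1 a = d ∧ ω.1 a' = d)).card ≤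
        (univ.filter (fun ω : TwoToOne q => ω.1 a = d ∧ ω.1 a'' = d)).card := by
      intro a'' ha''
      rw [mem_erase] at ha''
      refine card_le_card_of_injOn (pre (Equiv.swap a' a'')) (fun ω hω => ?_)
        (pre_injective _).injOn
      rw [mem_coe, mem_filter] at hω ⊢
      refine ⟨mem_univ _, ?_, ?_⟩
      · show ω.1 (Equiv.swap a' a'' a) = d
        rw [Equiv.swap_apply_of_ne_of_ne haa ha''.1.symm]
        exact hω.2.1
      · show ω.1 (Equiv.swap a' a'' a'') = d
        rw [Equiv.swap_apply_right]
        exact hω.2.2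
    have h2 : ∑ a'' ∈ (univ : Finset (Fin q)).erase a,
        (univ.filter (fun ω : TwoToOne q => ω.1 a = d ∧ ω.1 a'' = d)).card ≤
        (univ.filter (fun ω : TwoToOne q => ω.1 a = d)).card := by
      have h3 : ∀ a'' : Fin q, (univ.filter (fun ω : TwoToOne q => ω.1 a = d ∧ ω.1 a'' = d)).card =
          ∑ ω ∈ univ.filter (fun ω : TwoToOne q => ω.1 a = d), if ω.1 a'' = d then 1 else 0 := by
        intro a''
        rw [← filter_filter, card_filter]
      rw [sum_congr rfl fun a'' _ => h3 a'', sum_comm, card_eq_sum_ones]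
      refine sum_le_sum fun ω hω => ?_
      rw [← card_filter]
      have h4 := ω.2 d
      rw [Nat.card_eq_fintype_card, Fintype.card_subtype] at h4
      have h5 : ((univ : Finset (Fin q)).erase a).filter (fun a'' => ω.1 a'' = d) =
          (univ.filter (fun a'' => ω.1 a'' = d)).erase a := by
        ext i
        simp only [mem_filter, mem_erase, mem_univ, true_and]
        tauto
      rw [h5, card_erase_of_mem (by
        rw [mem_filter]
        exact ⟨mem_univ _, (mem_filter.1 hω).2⟩)]
      omega
    calc (q - 1) * (univ.filter (fun ω : TwoToOne q => ω.1 a = d ∧ ω.1 a' = d)).card =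
        ∑ _a'' ∈ (univ : Finset (Fin q)).erase a,
          (univ.filter (fun ω : TwoToOne q => ω.1 a = d ∧ ω.1 a' = d)).card := by
          rw [sum_const, card_erase_of_mem (mem_univ _), card_univ, Fintype.card_fin, smul_eq_mul]
      _ ≤ _ := (sum_le_sum h1).trans h2
  · have h1 : ∀ d' ∈ (univ : Finset (Fin q)).erase c,
        (univ.filter (fun ω : TwoToOne q => ω.1 a = c ∧ ω.1 a' = d)).card ≤
        (univ.filter (fun ω : TwoToOne q => ω.1 a = c ∧ ω.1 a' = d')).card := by
      intro d' hd'
      rw [mem_erase] at hd'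
      refine card_le_card_of_injOn (post (Equiv.swap d d')) (fun ω hω => ?_)
        (post_injective _).injOn
      rw [mem_coe, mem_filter] at hω ⊢
      refine ⟨mem_univ _, ?_, ?_⟩
      · show Equiv.swap d d' (ω.1 a) = c
        rw [hω.2.1, Equiv.swap_apply_of_ne_of_ne (Ne.symm hcd) hd'.1.symm]
      · show Equiv.swap d d' (ω.1 a') = d'
        rw [hω.2.2, Equiv.swap_apply_left]
    have h2 : ∑ d' ∈ (univ : Finset (Fin q)).erase c,
        (univ.filter (fun ω : TwoToOne q => ω.1 a = c ∧ ω.1 a' = d')).card ≤
        (univ.filter (fun ω : TwoToOne q => ω.1 a = c)).card := by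
      rw [← card_biUnion]
      · refine card_le_card fun ω hω => ?_
        obtain ⟨d', -, h⟩ := mem_biUnion.1 hω
        exact mem_filter.2 ⟨mem_univ _, (mem_filter.1 h).2.1⟩
      · intro d₁ _ d₂ _ hne
        rw [Function.onFun, disjoint_left]
        intro ω h₁ h₂
        exact hne ((mem_filter.1 h₁).2.2.symm.trans (mem_filter.1 h₂).2.2)
    calc (q - 1) * (univ.filter (fun ω : TwoToOne q => ω.1 a = c ∧ ω.1 a' = d)).card =
        ∑ _d' ∈ (univ : Finset (Fin q)).erase c,
          (univ.filter (fun ω : TwoToOne q => ω.1 a = c ∧ ω.1 a' = d)).card := by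
          rw [sum_const, card_erase_of_mem (mem_univ _), card_univ, Fintype.card_fin, smul_eq_mul]
      _ ≤ _ := (sum_le_sum h1).trans h2

/-- The map corrected such that the value at `a` is `b`. -/
def fix (ω : TwoToOne q) (a b : Fin q) : TwoToOne q := post (Equiv.swap (ω.1 a) b) ω

theorem fix_self (ω : TwoToOne q) (a b : Fin q) : (fix ω a b).1 a = b :=
  Equiv.swap_apply_left _ _

/-- The values of the corrected map at the other places are nearly uniform. -/
theorem card_fix {a a' : Fin q} (haa : a ≠ a') (b b' : Fin q) :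
    (q - 1) * (univ.filter (fun ω : TwoToOne q => (fix ω a b).1 a' = b')).card ≤
      Fintype.card (TwoToOne q) := by
  classical
  have h1 : (univ.filter (fun ω : TwoToOne q => (fix ω a b).1 a' = b')).card =
      ∑ c : Fin q, (univ.filter (fun ω : TwoToOne q => ω.1 a = c ∧
        ω.1 a' = Equiv.swap c b b')).card := by
    rw [card_eq_sum_card_fiberwise (f := fun ω : TwoToOne q => ω.1 a) (t := univ)
      (fun _ _ => mem_univ _)]
    refine sum_congr rfl fun c _ => ?_
    congr 1
    ext ω
    simp only [mem_filter, mem_univ, true_and]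
    constructor
    · rintro ⟨h, rfl⟩
      refine ⟨rfl, ?_⟩
      have h2 : Equiv.swap (ω.1 a) b (ω.1 a') = b' := h
      rw [← h2, Equiv.swap_apply_self]
    · rintro ⟨rfl, h⟩
      refine ⟨?_, rfl⟩
      show Equiv.swap (ω.1 a) b (ω.1 a') = b'
      rw [h, Equiv.swap_apply_self]
  have h2 : ∑ c : Fin q, (univ.filter (fun ω : TwoToOne q => ω.1 a = c)).card =
      Fintype.card (TwoToOne q) := by
    rw [← card_univ, card_eq_sum_card_fiberwise (f := fun ω : TwoToOne q => ω.1 a) (t := univ)
      (fun _ _ => mem_univ _)]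
  rw [h1, mul_sum, ← h2]
  exact sum_le_sum fun c _ => card_two haa _ _

end Pool.Agent.TH700.PA
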