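import Pool.Agent.TH700.PA.Rank

/-!
# Balanced partitions of the variables of a tree tensor network
-/

set_option autoImplicit false

open Finset

namespace Pool.Agent.TH700.PA


variable {V K Al W : Type} [Fintype V] [DecidableEq V]

/-- The sets that may become parts. -/
noncomputable def cand (T : Net K V Al W) : Finset (Finset V) :=
  ((insert ∅ (cutsv T)) ×ˢ ((insert ∅ (cutsv T)) ×ˢ (insert ∅ (cutsv T)))).image
    (fun q => q.1 \ (q.2.1 ∪ q.2.2))

theorem mem_cand {T : Net K V Al W} {A B C : Finset V} (hA : A = ∅ ∨ A ∈ cutsv T)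
    (hB : B = ∅ ∨ B ∈ cutsv T) (hC : C = ∅ ∨ C ∈ cutsv T) : A \ (B ∪ C) ∈ cand T := by
  unfold cand
  rw [mem_image]
  exact ⟨(A, B, C), by simp only [mem_product, mem_insert]; exact ⟨hA, hB, hC⟩, rfl⟩

theorem cand_mono {T T' : Net K V Al W} (h : cutsv T ⊆ cutsv T') : cand T ⊆ cand T' := by
  unfold cand
  have h1 : insert ∅ (cutsv T) ⊆ insert ∅ (cutsv T') := insert_subset_insert _ h
  exact image_subset_image (product_subset_product h1 (product_subset_product h1 h1))

theorem card_cand (T : Net K V Al W) : (cand T).card ≤ (T.size + 1) ^ 3 := by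
  unfold cand
  refine card_image_le.trans ?_
  rw [card_product, card_product]
  have h1 : (insert ∅ (cutsv T)).card ≤ T.size + 1 :=
    (card_insert_le _ _).trans (Nat.add_le_add_right (card_cutsv T) 1)
  calc _ ≤ (T.size + 1) * ((T.size + 1) * (T.size + 1)) :=
        Nat.mul_le_mul h1 (Nat.mul_le_mul h1 h1)
    _ = _ := by ring

theorem rk_part [Field K] {d : ℕ} {f : (V → Al) → K} {A B C : Finset V} (hA : Rk d f A)
    (hB : Rk d f B) (hC : Rk d f C) (hBA : B ⊆ A) (hCA : C ⊆ A) (hBC : Disjoint B C) :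
    Rk (d * (d * d)) f (A \ (B ∪ C)) := by
  have h1 : A \ (B ∪ C) = (Aᶜ ∪ (B ∪ C))ᶜ := by
    ext v
    simp only [mem_sdiff, mem_compl, mem_union]
    tauto
  rw [h1]
  refine rk_compl (rk_union (rk_compl hA) (rk_union hB hC hBC) ?_)
  rw [disjoint_left]
  intro v hv hv'
  rw [mem_compl] at hv
  exact (mem_union.1 hv').elim (fun h => hv (hBA h)) (fun h => hv (hCA h))

/-- The recursive construction. -/
theorem split [Field K] {f : (V → Al) → K} {d : ℕ} (hd : 1 ≤ d) (E : Finset V) {θ : ℕ}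
    (hθ : 1 ≤ θ) (T : Net K V Al W) : (∀ v, T.reads v ≤ 1) → (∀ A ∈ cutsv T, Rk d f A) →
    ∃ (L : List (Finset V)) (B : Finset V) (b : ℕ),
      (∀ P ∈ L, P ∈ cand T ∧ Rk (d * (d * d)) f P ∧ (E ∩ P).card ≤ 2 * θ ∧ P ⊆ B) ∧
      L.Pairwise Disjoint ∧ B ⊆ rdv T ∧ (∀ v ∈ B, ∃ P ∈ L, v ∈ P) ∧
      ((B = ∅ ∧ b = 0) ∨ (B ∈ cutsv T ∧ b = 1)) ∧ (E ∩ (rdv T \ B)).card ≤ θ ∧
      θ * (L.length + b) ≤ 2 * (E ∩ B).card := by
  induction T with
  | leaf v g =>
    intro _ _
    refine ⟨[], ∅, 0, by simp, List.Pairwise.nil, empty_subset _, by simp, Or.inl ⟨rfl, rfl⟩,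
      ?_, by simp⟩
    refine le_trans ?_ hθ
    rw [card_le_one]
    intro x hx y hy
    rw [mem_inter, mem_sdiff, mem_rdv_leaf] at hx hy
    rw [hx.2.1, hy.2.1]
  | node l t c hl ht =>
    intro h1 hR
    have hll : ∀ v, l.reads v ≤ 1 := fun v => by
      have := h1 v
      unfold Net.reads at this
      omega
    have htt : ∀ v, t.reads v ≤ 1 := fun v => by
      have := h1 v
      unfold Net.reads at this
      omega
    have hcl : cutsv l ⊆ cutsv (.node l t c) := fun A hA => mem_cutsv_node.2 (Or.inr (Or.inl hA))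
    have hct : cutsv t ⊆ cutsv (.node l t c) := fun A hA => mem_cutsv_node.2 (Or.inr (Or.inr hA))
    have hdis : Disjoint (rdv l) (rdv t) := by
      rw [disjoint_left]
      intro v hv hv'
      rw [mem_rdv] at hv hv'
      have := h1 v
      unfold Net.reads at this
      omega
    have hrl : rdv l ⊆ rdv (.node l t c) := fun v hv => mem_rdv_node.2 (Or.inl hv)
    have hrt : rdv t ⊆ rdv (.node l t c) := fun v hv => mem_rdv_node.2 (Or.inr hv)
    obtain ⟨L₁, B₁, b₁, a1, a2, a3, a4, a5, a6, a7⟩ := hl hll fun A hA => hR A (hcl hA)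
    obtain ⟨L₂, B₂, b₂, e1, e2, e3, e4, e5, e6, e7⟩ := ht htt fun A hA => hR A (hct hA)
    have hB1 : B₁ = ∅ ∨ B₁ ∈ cutsv (.node l t c) := a5.imp (fun h => h.1) fun h => hcl h.1
    have hB2 : B₂ = ∅ ∨ B₂ ∈ cutsv (.node l t c) := e5.imp (fun h => h.1) fun h => hct h.1
    have hR1 : Rk d f B₁ := by
      rcases hB1 with h | h
      · rw [h]; exact rk_empty hd f
      · exact hR _ h
    have hR2 : Rk d f B₂ := by
      rcases hB2 with h | h
      · rw [h]; exact rk_empty hd f
      · exact hR _ h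
    have hBB : Disjoint B₁ B₂ := disjoint_of_subset_left a3 (disjoint_of_subset_right e3 hdis)
    have hpair : (L₁ ++ L₂).Pairwise Disjoint := by
      rw [List.pairwise_append]
      refine ⟨a2, e2, fun P hP Q hQ => ?_⟩
      exact disjoint_of_subset_left (a1 P hP).2.2.2 (disjoint_of_subset_right (e1 Q hQ).2.2.2 hBB)
    have hunion : ∀ v ∈ B₁ ∪ B₂, ∃ P ∈ L₁ ++ L₂, v ∈ P := by
      intro v hv
      rcases mem_union.1 hv with h | h
      · obtain ⟨P, hP, hv⟩ := a4 v h
        exact ⟨P, List.mem_append_left _ hP, hv⟩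
      · obtain ⟨P, hP, hv⟩ := e4 v h
        exact ⟨P, List.mem_append_right _ hP, hv⟩
    have hlen : (L₁ ++ L₂).length = L₁.length + L₂.length := List.length_append
    have hcE : (E ∩ (B₁ ∪ B₂)).card = (E ∩ B₁).card + (E ∩ B₂).card := by
      rw [inter_union_distrib_left, card_union_of_disjoint]
      exact disjoint_of_subset_left inter_subset_right
        (disjoint_of_subset_right inter_subset_right hBB)
    have hBsub : B₁ ∪ B₂ ⊆ rdv (.node l t c) :=
      union_subset (a3.trans hrl) (e3.trans hrt)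
    have hrem : (E ∩ (rdv (.node l t c) \ (B₁ ∪ B₂))).card ≤ 2 * θ := by
      have h2 : E ∩ (rdv (.node l t c) \ (B₁ ∪ B₂)) ⊆
          (E ∩ (rdv l \ B₁)) ∪ (E ∩ (rdv t \ B₂)) := by
        intro v hv
        rw [mem_inter, mem_sdiff, mem_union, mem_rdv_node, not_or] at hv
        rw [mem_union, mem_inter, mem_inter, mem_sdiff, mem_sdiff]
        obtain ⟨g1, g2, g3, g4⟩ := hv
        exact g2.elim (fun h => Or.inl ⟨g1, h, g3⟩) fun h => Or.inr ⟨g1, h, g4⟩
      have h3 := (card_le_card h2).trans (card_union_le _ _)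
      omega
    have hparts : ∀ P ∈ L₁ ++ L₂, P ∈ cand (.node l t c) ∧ Rk (d * (d * d)) f P ∧
        (E ∩ P).card ≤ 2 * θ ∧ P ⊆ B₁ ∪ B₂ := by
      intro P hP
      rcases List.mem_append.1 hP with h | h
      · obtain ⟨g1, g2, g3, g4⟩ := a1 P h
        exact ⟨cand_mono hcl g1, g2, g3, g4.trans subset_union_left⟩
      · obtain ⟨g1, g2, g3, g4⟩ := e1 P h
        exact ⟨cand_mono hct g1, g2, g3, g4.trans subset_union_right⟩
    have hclose : 2 * θ + θ * (L₁.length + L₂.length) ≤
        2 * (E ∩ rdv (.node l t c)).card →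
        ∃ (L : List (Finset V)) (B : Finset V) (b : ℕ),
      (∀ P ∈ L, P ∈ cand (.node l t c) ∧ Rk (d * (d * d)) f P ∧ (E ∩ P).card ≤ 2 * θ ∧ P ⊆ B) ∧
      L.Pairwise Disjoint ∧ B ⊆ rdv (.node l t c) ∧ (∀ v ∈ B, ∃ P ∈ L, v ∈ P) ∧
      ((B = ∅ ∧ b = 0) ∨ (B ∈ cutsv (.node l t c) ∧ b = 1)) ∧
      (E ∩ (rdv (.node l t c) \ B)).card ≤ θ ∧
      θ * (L.length + b) ≤ 2 * (E ∩ B).card := by
      intro hcount
      refine ⟨(rdv (.node l t c) \ (B₁ ∪ B₂)) :: (L₁ ++ L₂), rdv (.node l t c), 1, ?_, ?_,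
        Subset.refl _, ?_, Or.inr ⟨rdv_mem_cutsv _, rfl⟩, by simp, ?_⟩
      · intro P hP
        rcases List.mem_cons.1 hP with rfl | h
        · exact ⟨mem_cand (Or.inr (rdv_mem_cutsv _)) hB1 hB2,
            rk_part (hR _ (rdv_mem_cutsv _)) hR1 hR2 (a3.trans hrl) (e3.trans hrt) hBB, hrem,
            sdiff_subset⟩
        · obtain ⟨g1, g2, g3, g4⟩ := hparts P h
          exact ⟨g1, g2, g3, g4.trans hBsub⟩
      · rw [List.pairwise_cons]
        refine ⟨fun P hP => ?_, hpair⟩
        exact disjoint_of_subset_right (hparts P hP).2.2.2 sdiff_disjoint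
      · intro v hv
        by_cases hv' : v ∈ B₁ ∪ B₂
        · obtain ⟨P, hP, hvP⟩ := hunion v hv'
          exact ⟨P, List.mem_cons_of_mem _ hP, hvP⟩
        · exact ⟨_, List.mem_cons_self, mem_sdiff.2 ⟨hv, hv'⟩⟩
      · rw [List.length_cons, hlen]
        calc θ * (L₁.length + L₂.length + 1 + 1) = 2 * θ + θ * (L₁.length + L₂.length) := by ring
          _ ≤ _ := hcount
    have hE3 : (E ∩ rdv (.node l t c)).card = (E ∩ B₁).card + (E ∩ B₂).card +
        (E ∩ (rdv (.node l t c) \ (B₁ ∪ B₂))).card := by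
      have h2 := card_inter_add_card_sdiff (E ∩ rdv (.node l t c)) (B₁ ∪ B₂)
      rw [inter_assoc, inter_eq_right.2 hBsub, inter_sdiff_assoc, hcE] at h2
      exact h2.symm
    rw [mul_add] at a7 e7
    rcases Nat.lt_or_ge θ (E ∩ (rdv (.node l t c) \ (B₁ ∪ B₂))).card with h2 | h2
    · refine hclose ?_
      rw [mul_add, hE3]
      have h3 : θ * L₁.length ≤ 2 * (E ∩ B₁).card := by omega
      have h4 : θ * L₂.length ≤ 2 * (E ∩ B₂).card := by omega
      omega
    · rcases a5 with ⟨a5, a5'⟩ | ⟨a5, a5'⟩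
      · subst a5 a5'
        refine ⟨L₁ ++ L₂, B₂, b₂, fun P hP => ?_, hpair, e3.trans hrt, fun v hv => ?_,
          e5.imp id fun h => ⟨hct h.1, h.2⟩, ?_, ?_⟩
        · have := hparts P hP
          rwa [empty_union] at this
        · exact hunion v (mem_union_right _ hv)
        · rwa [empty_union] at h2
        · rw [hlen]
          rw [inter_empty, card_empty] at a7
          rw [mul_add, mul_add]
          omega
      · rcases e5 with ⟨e5, e5'⟩ | ⟨e5, e5'⟩
        · subst e5 e5'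
          refine ⟨L₁ ++ L₂, B₁, b₁, fun P hP => ?_, hpair, a3.trans hrl, fun v hv => ?_,
            Or.inr ⟨hcl a5, a5'⟩, ?_, ?_⟩
          · have := hparts P hP
            rwa [union_empty] at this
          · exact hunion v (mem_union_left _ hv)
          · rwa [union_empty] at h2
          · rw [hlen]
            rw [inter_empty, card_empty] at e7
            rw [mul_add, mul_add]
            omega
        · subst a5' e5'
          refine hclose ?_
          rw [mul_add, hE3]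
          rw [mul_one] at a7 e7
          omega

/-- The balanced partition. -/
theorem exists_parts [Field K] {f : (V → Al) → K} {d : ℕ} (hd : 1 ≤ d) (E : Finset V) {θ t : ℕ}
    (hθ : 1 ≤ θ) (T : Net K V Al W) (h1 : ∀ v, T.reads v = 1) (hR : ∀ A ∈ cutsv T, Rk d f A)
    (ht : 2 * E.card + θ ≤ θ * t) :
    ∃ P : Fin t → Finset V, (∀ j, P j ∈ cand T ∧ Rk (d * (d * d)) f (P j) ∧
        (E ∩ P j).card ≤ 2 * θ) ∧ (∀ i j, i ≠ j → Disjoint (P i) (P j)) ∧ ∀ v, ∃ j, v ∈ P j := by
  obtain ⟨L, B, b, a1, a2, a3, a4, a5, a6, a7⟩ := split hd E hθ T (fun v => (h1 v).le) hR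
  have hB : B = ∅ ∨ B ∈ cutsv T := a5.imp (fun h => h.1) fun h => h.1
  have hRB : Rk d f B := by
    rcases hB with h | h
    · rw [h]; exact rk_empty hd f
    · exact hR _ h
  have hru : rdv T = univ := by
    rw [eq_univ_iff_forall]
    intro v
    rw [mem_rdv, h1]
    exact one_pos
  obtain ⟨L', hL'⟩ : ∃ L', L' = (rdv T \ (B ∪ ∅)) :: L := ⟨_, rfl⟩
  have hall : ∀ P ∈ L', P ∈ cand T ∧ Rk (d * (d * d)) f P ∧ (E ∩ P).card ≤ 2 * θ := by
    intro P hP
    rw [hL'] at hP
    rcases List.mem_cons.1 hP with rfl | h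
    · refine ⟨mem_cand (Or.inr (rdv_mem_cutsv _)) hB (Or.inl rfl),
        rk_part (hR _ (rdv_mem_cutsv _)) hRB (rk_empty hd f) a3 (empty_subset _)
          (disjoint_empty_right _), ?_⟩
      rw [union_empty]
      omega
    · exact ⟨(a1 P h).1, (a1 P h).2.1, (a1 P h).2.2.1⟩
  have hpw : L'.Pairwise Disjoint := by
    rw [hL', List.pairwise_cons]
    refine ⟨fun P hP => ?_, a2⟩
    rw [union_empty]
    exact disjoint_of_subset_right (a1 P hP).2.2.2 sdiff_disjoint
  have hcov : ∀ v, ∃ P ∈ L', v ∈ P := by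
    intro v
    rw [hL']
    by_cases hv : v ∈ B
    · obtain ⟨P, hP, hvP⟩ := a4 v hv
      exact ⟨P, List.mem_cons_of_mem _ hP, hvP⟩
    · refine ⟨_, List.mem_cons_self, mem_sdiff.2 ⟨?_, by simpa using hv⟩⟩
      rw [hru]
      exact mem_univ v
  have hlen : L'.length ≤ t := by
    rw [hL', List.length_cons]
    have h2 : (E ∩ B).card ≤ E.card := card_le_card inter_subset_left
    have h3 : θ * L.length ≤ θ * (L.length + b) := Nat.mul_le_mul_left _ (Nat.le_add_right _ _)
    refine Nat.le_of_mul_le_mul_left ?_ (show 0 < θ by omega)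
    rw [mul_add, mul_one]
    omega
  refine ⟨fun j => if h : j.1 < L'.length then L'[j.1] else ∅, fun j => ?_, fun i j hij => ?_,
    fun v => ?_⟩
  · by_cases h : j.1 < L'.length
    · simp only [dif_pos h]
      exact hall _ (List.getElem_mem h)
    · simp only [dif_neg h]
      refine ⟨?_, rk_empty (Nat.mul_pos hd (Nat.mul_pos hd hd)) f, by simp⟩
      have := mem_cand (T := T) (A := ∅) (B := ∅) (C := ∅) (Or.inl rfl) (Or.inl rfl) (Or.inl rfl)
      simpa using this
  · by_cases hi : i.1 < L'.length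
    · by_cases hj : j.1 < L'.length
      · simp only [dif_pos hi, dif_pos hj]
        rw [List.pairwise_iff_getElem] at hpw
        have hne : i.1 ≠ j.1 := fun h => hij (Fin.ext h)
        rcases Nat.lt_or_gt_of_ne hne with h | h
        · exact hpw _ _ hi hj h
        · exact (hpw _ _ hj hi h).symm
      · simp only [dif_neg hj]
        exact disjoint_empty_right _
    · simp only [dif_neg hi]
      exact disjoint_empty_left _
  · obtain ⟨P, hP, hv⟩ := hcov v
    obtain ⟨k, hk, rfl⟩ := List.getElem_of_mem hP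
    refine ⟨⟨k, by omega⟩, ?_⟩
    simp only [dif_pos hk]
    exact hv

end Pool.Agent.TH700.PA
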